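import Pool.Agent.R317.ToM
import Pool.Agent.R317.ToC

/-!
# MP_91ed4c_nt, Q1: the coefficients of `C(q) = (q;q)_∞ T_o(q)` are unbounded in both directions

`C = ∑ c(n) q^n` is taken in the product form listed in the problem file,
`C(q) = (∑ q^{6n²+n}(1-q^{4n+1})) (∑ q^{2n²+3n}) + (∑ q^{6n²+7n+1}(1-q^{4n+3})) (∑ q^{2n²+n})`.

Proof: `c(N)` is a signed count of the solutions of `x²+3y² = 24N+28`. For `24N+28 = 4·157^(2n)` this
count is the sum `∑_{j ≤ n} F(jα)` of a step function `F` along the rotation by an irrational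
angle `α`; if these sums were bounded, `F` would be a coboundary of a bounded measurable function,
which contradicts the Riemann-Lebesgue lemma at the odd denominators of good approximations to `α`.
Finally `c(25n+28) = -c(n)` gives both signs.
-/

namespace Pool.Agent.Results.MP_91ed4c_nt.Unbounded

open Pool.Agent.R317.ToA Pool.Agent.R317.ToC

/-- `limsup c(n) = +∞` and `liminf c(n) = -∞`. -/
theorem result :
    (∀ M : ℤ, ∃ n : ℕ, M < PowerSeries.coeff n C) ∧
      (∀ M : ℤ, ∃ n : ℕ, PowerSeries.coeff n C < -M) := by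
  have flip : ∀ n : ℕ, PowerSeries.coeff (25 * n + 28) C = - PowerSeries.coeff n C := by
    intro n
    rw [coeff_C, coeff_C, ← W_25]
    congr 1
    ring
  have key : ∀ M : ℤ, ∃ n : ℕ, |M| < |PowerSeries.coeff n C| := by
    intro M
    obtain ⟨n, hn⟩ := Pool.Agent.R317.ToM.W_unbounded |M|
    have hn0 : n ≠ 0 := by
      rintro rfl
      rw [mul_zero, pow_zero, mul_one, W_four, abs_zero] at hn
      exact absurd hn (not_lt.mpr (abs_nonneg M))
    obtain ⟨k, rfl⟩ : ∃ k, n = k + 1 := ⟨n - 1, by omega⟩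
    have hmod : 157 ^ (2 * (k + 1)) % 6 = 1 := by
      rw [Nat.pow_mod]
      norm_num
    have hge : 7 ≤ 157 ^ (2 * (k + 1)) := by
      calc 7 ≤ 157 ^ 1 := by norm_num
        _ ≤ _ := Nat.pow_le_pow_right (by norm_num) (by omega)
    refine ⟨(157 ^ (2 * (k + 1)) - 7) / 6, ?_⟩
    rw [coeff_C]
    have e : 24 * ((157 ^ (2 * (k + 1)) - 7) / 6) + 28 = 4 * 157 ^ (2 * (k + 1)) := by
      generalize 157 ^ (2 * (k + 1)) = t at hmod hge
      omega
    rw [e]
    exact hn
  constructor
  · intro M
    obtain ⟨n, hn⟩ := key M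
    have h1 := le_abs_self M
    rcases abs_cases (PowerSeries.coeff n C) with h | h
    · exact ⟨n, by linarith⟩
    · exact ⟨25 * n + 28, by rw [flip]; linarith⟩
  · intro M
    obtain ⟨n, hn⟩ := key M
    have h1 := le_abs_self M
    rcases abs_cases (PowerSeries.coeff n C) with h | h
    · exact ⟨25 * n + 28, by rw [flip]; linarith⟩
    · exact ⟨n, by linarith⟩

end Pool.Agent.Results.MP_91ed4c_nt.Unbounded
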